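import Pool.Agent.H45.DepG2

open MeasureTheory Filter Topology Asymptotics Pool.Agent.H45.DepG

namespace Pool.Agent.Results.MP_cca6ac_pr.Counter

/-- the events `E n` hold with probability tending to one -/
def AS {Ω : ℕ → Type} [∀ n, MeasurableSpace (Ω n)] (μ : ∀ n, Measure (Ω n)) (E : ∀ n, Ω n → Prop) : Prop :=
  Tendsto (fun n => (μ n).real {ω | ¬ E n ω}) atTop (𝓝 0)

/-- every sequence of `d`-dependent random graphs almost surely has `Q` -/
def Every (p : ℕ → ℝ) (d : ℕ → ℕ) (Q : ∀ n, SimpleGraph (Fin n) → Prop) : Prop :=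
  ∀ (Ω : ℕ → Type) [∀ n, MeasurableSpace (Ω n)] (μ : ∀ n, Measure (Ω n))
    (G : ∀ n, Ω n → SimpleGraph (Fin n)), (∀ n, IsDep (μ n) (G n) (p n) (d n)) →
      AS μ fun n ω => Q n (G n ω)

/-- some sequence of `d`-dependent random graphs almost surely has `Q` -/
def Some (p : ℕ → ℝ) (d : ℕ → ℕ) (Q : ∀ n, SimpleGraph (Fin n) → Prop) : Prop :=
  ∃ (Ω : ℕ → Type) (_ : ∀ n, MeasurableSpace (Ω n)) (μ : ∀ n, Measure (Ω n))
    (G : ∀ n, Ω n → SimpleGraph (Fin n)), (∀ n, IsDep (μ n) (G n) (p n) (d n)) ∧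
      AS μ fun n ω => Q n (G n ω)

/-- `(L, U)` is a threshold pair for `P` -/
def Pair (P : ∀ n, SimpleGraph (Fin n) → Prop) (L U : ℕ → ℕ → ℝ) : Prop :=
  (∀ n ≥ 1, ∀ d, 0 < L n d ∧ L n d ≤ U n d) ∧ ∀ (d : ℕ → ℕ) (p : ℕ → ℝ),
    (fun n => (d n : ℝ)) =O[atTop] (fun n => n / Real.log n) → (∀ n, p n ∈ Set.Icc 0 1) →
    (p =o[atTop] (fun n => L n (d n)) → Every p d fun n G => ¬ P n G) ∧
    ((fun n => U n (d n)) =o[atTop] p → Every p d P) ∧
    ((fun n => L n (d n)) =o[atTop] p → p =o[atTop] (fun n => U n (d n)) →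
      Some p d P ∧ Some p d fun n G => ¬ P n G)

/-- two edges share a vertex, or there are at least `√n` edges -/
def P (n : ℕ) (G : SimpleGraph (Fin n)) : Prop :=
  (∃ a b c, a ≠ c ∧ G.Adj a b ∧ G.Adj b c) ∨ √n ≤ G.edgeSet.ncard

variable {n d : ℕ} {Ω : Type} [MeasurableSpace Ω] {μ : Measure Ω} {G : Ω → SimpleGraph (Fin n)} {p : ℝ}

lemma sub (h : IsDep μ G p d) (hn : 1 ≤ n) :
    μ.real {ω | ¬ ¬ P n (G ω)} ≤ μ.real {ω | ∃ a b, (G ω).Adj a b} := by
  have := h.1
  refine measureReal_mono fun ω h => ?_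
  rcases not_not.1 h with ⟨a, b, c, -, h, -⟩ | h
  · exact ⟨a, b, h⟩
  · obtain ⟨⟨a, b⟩, h⟩ := Set.nonempty_of_ncard_ne_zero (s := (G ω).edgeSet) fun e => by
      simp [e, Real.sqrt_pos.2 (show (0 : ℝ) < n by positivity) |>.not_ge] at h
    exact ⟨a, b, h⟩

lemma zero (h : IsDep μ G p 0) (hp : 0 ≤ p) (hn : 1 ≤ n) :
    μ.real {ω | ¬ ¬ P n (G ω)} ≤ (p / (√n / n ^ 2)) ^ 2 + p / (√n / n ^ 2) := by
  have := h.1
  have : 0 < √n := by positivity
  simp only [not_not, P, Set.ofPred_or]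
  grw [measureReal_union_le, h.path, (h.count hp this).1, div_pow, div_pow, Real.sq_sqrt (by positivity)]
  exact le_of_eq (by field_simp)

lemma some_of {p b : ℕ → ℝ} {d : ℕ → ℕ} {Q} (k : ℕ → ℕ) (hk : ∀ n, k n ≤ d n) (hp : ∀ n, p n ∈ Set.Icc 0 1)
    (hb : Tendsto b atTop (𝓝 0)) (h : ∀ᶠ n in atTop, ∀ j, k n = j →
      (coins _ (p n)).real {ω | ¬ Q n (cg (blk n (j + 1)) ω)} ≤ b n) : Some p d Q :=
  ⟨_, _, _, _, fun n => (blk_dep (hp n)).mono (hk n),
    squeeze_zero' (.of_forall fun _ => measureReal_nonneg) (h.mono fun _ h => h _ rfl) hb⟩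

theorem result : ∃ (P : ∀ n, SimpleGraph (Fin n) → Prop) (L U : ℕ → ℕ → ℝ),
    (∀ n G H, G ≤ H → P n G → P n H) ∧ (∀ n G H, Nonempty (G ≃g H) → P n G → P n H) ∧ Pair P L U ∧
    ¬ ∃ f : ℕ → ℝ, ∀ d : ℕ → ℕ, (fun n => (d n : ℝ)) =O[atTop] (fun n => n / Real.log n) →
      (fun n => U n (d n) / L n (d n)) =O[atTop] fun n => f (d n) := by
  have sq : ∀ y : ℕ → ℝ, Tendsto y atTop (𝓝 0) → Tendsto (fun n => y n ^ 2 + 2 * y n) atTop (𝓝 0) :=
    fun y h => by simpa using (h.pow 2).add (h.const_mul 2)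
  have s1 : ∀ n : ℕ, 1 ≤ n → 1 ≤ √n := fun n h => Real.one_le_sqrt.2 (by exact_mod_cast h)
  refine ⟨P, fun n d => (if d = 0 then √n else 1) / n ^ 2, fun n d => max √n (d + 1) / n ^ 2,
    fun n G H h => Or.imp (fun ⟨a, b, c, x, y, z⟩ => ⟨a, b, c, x, h y, h z⟩) fun x => x.trans
      (Nat.cast_le.2 (Set.ncard_le_ncard (SimpleGraph.edgeSet_mono h))),
    fun n G H ⟨φ⟩ => Or.imp (fun ⟨a, b, c, x, y, z⟩ => ⟨φ a, φ b, φ c, φ.injective.ne x, φ.map_adj_iff.2 y,
      φ.map_adj_iff.2 z⟩) fun x => x.trans_eq (congrArg _ (Set.ncard_congr' φ.mapEdgeSet)),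
    ⟨fun n hn d => ⟨by have := s1 n hn; positivity, ?_⟩, fun d p hd hp => ⟨fun h Ω _ μ G H => ?_,
      fun h Ω _ μ G H => ?_, fun h h' => ⟨?_, ?_⟩⟩⟩, fun ⟨f, h⟩ => ?_⟩
  · beta_reduce; gcongr; split_ifs
    exacts [le_max_left _ _, (s1 n hn).trans (le_max_left _ _)]
  · refine squeeze_zero' (.of_forall fun _ => measureReal_nonneg) ?_ (sq _ h.tendsto_div_nhds_zero)
    filter_upwards [eventually_ge_atTop 1] with n hn
    have := (hp n).1
    split_ifs with e
    · have : 0 ≤ p n / (√n / n ^ 2) := by positivity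
      linarith [zero (e ▸ H n) (hp n).1 hn]
    · grw [sub (H n) hn, (H n).edge this, div_div_eq_mul_div, div_one, mul_comm]
      nlinarith [mul_nonneg this (sq_nonneg (n : ℝ))]
  · refine squeeze_zero' (.of_forall fun _ => measureReal_nonneg) ?_
      (by simpa using h.tendsto_div_nhds_zero.const_mul 16)
    filter_upwards [eventually_ge_atTop 2, h.def (show 0 < 1 / 8 by norm_num)] with n hn h
    have := (H n).1
    have a := s1 n (by omega)
    rw [Real.norm_of_nonneg (by positivity), Real.norm_of_nonneg (hp n).1, div_le_iff₀ (by positivity)] at h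
    have b := le_max_left √n (d n + 1)
    refine le_trans (measureReal_mono (s₂ := {ω | (G n ω).edgeSet.ncard < √n})
      fun ω h => not_le.1 (not_or.1 h).2) ?_
    grw [(((H n).count (hp n).1 (by positivity)).2 hn (by linarith)), div_div, mul_div_assoc]
    have := (hp n).1
    gcongr; exact le_max_right _ _
  · refine some_of (fun n => min 1 (d n)) (fun _ => min_le_right _ _) hp
      (by simpa only [mul_zero] using h.tendsto_div_nhds_zero.const_mul 64) ?_
    filter_upwards [eventually_ge_atTop 8, (h.trans h').def one_half_pos, h.def one_pos] with n hn a b j hj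
    have c := s1 n (by omega)
    have e : d n ≠ 0 := fun e => by
      simp only [e, if_true, Nat.cast_zero, zero_add, max_eq_left c] at a
      have : 0 < ‖√n / (n : ℝ) ^ 2‖ := norm_pos_iff.2 (by positivity)
      linarith
    have := (blk_dep (n := n) (k := 1) (hp n)).1
    rw [if_neg e, Real.norm_of_nonneg (by positivity), Real.norm_of_nonneg (hp n).1] at b
    have p0 : 0 < p n := by linarith [show 0 < 1 / (n : ℝ) ^ 2 by positivity]
    obtain rfl : 1 = j := by omega
    rw [if_neg e]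
    refine le_trans (measureReal_mono fun ω h => (not_or.1 h).1) ((blk_path (hp n) hn).trans ?_)
    grw [Real.exp_neg,
      ← Real.add_one_le_exp, ← le_add_of_nonneg_right zero_le_one]
    exact le_of_eq (by field_simp)
  · have : ∀ n : ℕ, ∃ k, k = d n ∧ √n ≤ d n + 1 ∨ k = 0 ∧ d n + 1 < √n := fun n =>
      (le_or_gt _ _).elim (fun h => ⟨_, .inl ⟨rfl, h⟩⟩) fun h => ⟨_, .inr ⟨rfl, h⟩⟩
    choose k hk using this
    refine some_of k (fun n => by rcases hk n with h | h <;> simp [h.1]) hp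
      (sq _ h'.tendsto_div_nhds_zero) ?_
    have : (fun n : ℕ => (n : ℝ) / Real.log n) =o[atTop] fun n => (n : ℝ) := by
      simpa [div_eq_mul_inv] using (isBigO_refl (fun n : ℕ => (n : ℝ)) atTop).mul_isLittleO
        ((isLittleO_one_iff ℝ).2 (Real.tendsto_log_atTop.comp tendsto_natCast_atTop_atTop).inv_tendsto_atTop)
    filter_upwards [eventually_ge_atTop 2, (hd.trans_isLittleO this).def one_half_pos] with n hn a j hj
    have := (hp n).1
    rcases hj ▸ hk n with ⟨rfl, e⟩ | ⟨rfl, e⟩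
    · have : (2 : ℝ) ≤ n := by exact_mod_cast hn
      simp only [Real.norm_natCast] at a
      grw [sub (blk_dep (hp n)) (by omega), blk_edge (hp n) (by exact_mod_cast (by linarith : (d n + 1 : ℝ) ≤ n)),
        max_eq_right e, div_div_eq_mul_div, mul_comm (p n)]
      exact le_add_of_nonneg_left (sq_nonneg _)
    · have : 0 ≤ p n / (√n / n ^ 2) := by positivity
      rw [max_eq_left e.le]
      linarith [zero (n := n) (blk_dep (hp n)) (hp n).1 (by omega)]
  · refine absurd (h (fun _ => 1) (.of_bound' ?_)).bound fun ⟨c, h⟩ => ?_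
    swap
    · obtain ⟨n, h1, h2, h3⟩ := (h.and ((eventually_ge_atTop 1).and ((Real.tendsto_sqrt_atTop.comp
        tendsto_natCast_atTop_atTop).eventually_gt_atTop (c * ‖f 1‖)))).exists
      beta_reduce at h1
      rw [if_neg one_ne_zero, div_div_div_cancel_right₀ (by positivity), div_one] at h1
      exact h3.not_ge ((le_max_left _ _).trans ((le_abs_self _).trans h1))
    · filter_upwards [eventually_ge_atTop 2] with n hn
      have : 0 < Real.log n := Real.log_pos (by exact_mod_cast hn)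
      rw [Nat.cast_one, norm_one]
      exact ((one_le_div this).2 (Real.log_le_self (by positivity))).trans (le_abs_self _)

end Pool.Agent.Results.MP_cca6ac_pr.Counter
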